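import Pool.Agent.Helper31.EC.PM

/-! SWAP (39c (4.5)): in a homogeneous corner the deficit of one vertical coordinate given the other is a deficit of
the other one given the first, so the coordinate of highest weight may be chosen as the unsaturated one. Also the
LEMMA NC (39c sect. 3): no colours at a level which is known to a full window. Everything in an entropy lattice, with
explicit errors. -/

set_option autoImplicit false

namespace Pool.Agent.Helper51.SW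

open Pool.Agent.Helper31.EC

variable {L : Type*} [PM L]

/-- SWAP, lattice form. `b` = base coordinates and time, `κ ≤ κ'` labels of two windows, `R' ≤ R` and `z' ≤ z` = the
digits known to `κ'` and all digits. The last term is the defect of fullness of `R` given `κ'`. -/
theorem swap_le {b κ κ' R R' z z' : L} (hκ : κ ≤ κ' ⊔ b) (hz : z' ≤ z) (hzκ : z' ≤ κ' ⊔ b) (hRκ : R' ≤ κ' ⊔ b)
    (hR : R' ≤ R) :
    h R' (κ ⊔ b ⊔ z) ≤ h R' (κ ⊔ b) - (h z' (κ ⊔ b) - h z' (κ ⊔ b ⊔ R)) +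
      (h R (R' ⊔ (κ ⊔ b)) - h R (κ' ⊔ b)) := by
  have h1 : I R' z (κ ⊔ b) = h R' (κ ⊔ b) - h R' (z ⊔ (κ ⊔ b)) := I_eq _ _ _
  have h2 : I R' z' (κ ⊔ b) ≤ I R' z (κ ⊔ b) := I_mono_right (hz.trans le_sup_left)
  have h3 : I z' R (κ ⊔ b) = h z' (κ ⊔ b) - h z' (R ⊔ (κ ⊔ b)) := I_eq _ _ _
  have h4 : I z' (R' ⊔ R) (κ ⊔ b) = I z' R' (κ ⊔ b) + I z' R (R' ⊔ (κ ⊔ b)) := I_chain_right _ _ _ _
  rw [sup_eq_right.mpr hR] at h4
  have h5 : I z' R (R' ⊔ (κ ⊔ b)) = h R (R' ⊔ (κ ⊔ b)) - h R (z' ⊔ (R' ⊔ (κ ⊔ b))) := I_eq' _ _ _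
  have h6 : h R (κ' ⊔ b) ≤ h R (z' ⊔ (R' ⊔ (κ ⊔ b))) := by
    apply h_anti
    exact sup_le hzκ (sup_le hRκ (sup_le hκ le_sup_right))
  have h7 : I R' z' (κ ⊔ b) = I z' R' (κ ⊔ b) := I_comm _ _ _
  have e1 : z ⊔ (κ ⊔ b) = κ ⊔ b ⊔ z := sup_comm _ _
  have e2 : R ⊔ (κ ⊔ b) = κ ⊔ b ⊔ R := sup_comm _ _
  rw [e1] at h1
  rw [e2] at h3
  linarith

/-- SWAP with rates: weights `w1` of `R` and `w` of `z`, `κ'` = the label of the window `s + k / w`. If `R` is full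
given `κ` and given `κ'`, `z` is full given `κ`, and `z` has rate at most `θ` given all digits of `R`, then `R` has
rate at most `1 - (1 - θ) w / w1` given all digits of `z`. -/
theorem swap_rate {b κ κ' R R' z z' : L} {w w1 k θ e : ℝ} (hw : 0 < w) (hw1 : 0 < w1)
    (hκ : κ ≤ κ' ⊔ b) (hz : z' ≤ z) (hzκ : z' ≤ κ' ⊔ b) (hRκ : R' ≤ κ' ⊔ b) (hR : R' ≤ R)
    (h1 : h R' (κ ⊔ b) ≤ w1 * (k / w) + e) (h2 : h R (R' ⊔ (κ ⊔ b)) ≤ h R (κ' ⊔ b) + e)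
    (h3 : k - e ≤ h z' (κ ⊔ b)) (h4 : h z' (κ ⊔ b ⊔ R) ≤ θ * k + e) :
    h R' (κ ⊔ b ⊔ z) ≤ (1 - (1 - θ) * (w / w1)) * (w1 * (k / w)) + 4 * e := by
  have h5 := swap_le hκ hz hzκ hRκ hR
  have e1 : (1 - (1 - θ) * (w / w1)) * (w1 * (k / w)) = w1 * (k / w) - (1 - θ) * k := by
    field_simp
  rw [e1]
  linarith

/-- LEMMA NC. `t` = time, `Pr` = the point to the level `r`, `M` = the base coordinates (all digits), `Mr` = their
digits to the level `r`, `z` = the vertical coordinate, `zr` its digits to the level `r`; `κ` a label which knows `zr`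
given `Mr` and `t`. If `M` is full given `Mr`, `κ`, `t`, then it is full given `Pr = (Mr, zr)` and `t`, also given any
function `V` of `κ` and `t`. -/
theorem nc_full {t M Mr zr κ V : L} {v : ℝ} (hz : zr ≤ κ ⊔ (Mr ⊔ t)) (hV : V ≤ κ ⊔ t)
    (hM : v ≤ h M (Mr ⊔ (κ ⊔ t))) : v ≤ h M (Mr ⊔ zr ⊔ (V ⊔ t)) := by
  refine hM.trans (h_anti ?_)
  have h1 : κ ⊔ (Mr ⊔ t) = Mr ⊔ (κ ⊔ t) := sup_left_comm _ _ _
  rw [h1] at hz
  refine sup_le (sup_le le_sup_left hz) (sup_le (hV.trans le_sup_right) (le_sup_right.trans le_sup_right))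

/-- consequence of NC: the deficit of the point between the levels `r` and `s` is a deficit of `z` given ALL digits of
`M`. `Ps = (Ms, zs)`, `Pr = (Mr, zr)`, `W` = conditions. -/
theorem nc_deficit {W M Ms Mr zs zr : L} {x v : ℝ} (hMs : Ms ≤ M) (hMr : Mr ≤ Ms)
    (hP : h (Ms ⊔ zs) (Mr ⊔ zr ⊔ W) ≤ x) (hM : v ≤ h M (Mr ⊔ zr ⊔ W)) :
    h zs (M ⊔ (zr ⊔ W)) ≤ x - (v - h M (Ms ⊔ W)) := by
  -- total entropy of `M` and `zs` in two ways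
  have h1 : h (M ⊔ zs) (Mr ⊔ zr ⊔ W) = h M (Mr ⊔ zr ⊔ W) + h zs (M ⊔ (Mr ⊔ zr ⊔ W)) := h_chain _ _ _
  have h2 : h ((Ms ⊔ zs) ⊔ M) (Mr ⊔ zr ⊔ W) = h (Ms ⊔ zs) (Mr ⊔ zr ⊔ W) + h M ((Ms ⊔ zs) ⊔ (Mr ⊔ zr ⊔ W)) :=
    h_chain _ _ _
  have e1 : (Ms ⊔ zs) ⊔ M = M ⊔ zs := by
    rw [sup_assoc, sup_comm zs M, ← sup_assoc, sup_eq_right.mpr hMs]
  have e2 : M ⊔ (Mr ⊔ zr ⊔ W) = M ⊔ (zr ⊔ W) := by
    rw [sup_assoc Mr zr W, ← sup_assoc, sup_eq_left.mpr (hMr.trans hMs)]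
  rw [e1] at h2
  rw [e2] at h1
  have h3 : h M ((Ms ⊔ zs) ⊔ (Mr ⊔ zr ⊔ W)) ≤ h M (Ms ⊔ W) := by
    apply h_anti
    exact sup_le (le_sup_left.trans le_sup_left) (le_sup_right.trans le_sup_right)
  linarith

end Pool.Agent.Helper51.SW
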